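import Pool.Agent.L0h9.Six.Main

/-!
# Potential density for the general sextic double cover of `ℙⁿ`, `n ≥ 5` (helper9)

For `n ≥ 5` let `X : w² = F(x₀, …, x_n)` be the double cover of `ℙⁿ` branched along a smooth sextic
hypersurface, a Fano variety of dimension `n`. We show that there is a nonzero polynomial `Φ`
with rational coefficients in the coefficients of the sextic forms such that for all number
fields `k` and all smooth sextic forms `F` over `k` with `Φ(F) ≠ 0` the variety `X` is potentially
dense: for some number field `L` which contains `k` the `L`-rational points are Zariski dense in `X`.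

(For `n ≥ 7` all smooth sextics are covered by `AllSmoothHighDim`; the new cases are the
double covers of `ℙ⁵` and `ℙ⁶`.)

Idea of the proof. By the results on sextics with a line (`SexticsWithLine`) it suffices that the
branch divisor contains a line with a point at which there is an asymptotic tangent direction
of contact order exactly three which is not conjugate to the line. The forms with a line and a
direction of this kind in a normalised position are parametrised by an affine space (the nine
coefficients on which there are conditions are replaced by nine parameters of the position of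
the point, of the line and of the direction), and we show that this affine space dominates the
space of all sextic forms, by the computation of the Jacobian matrix at one point.
-/

set_option autoImplicit false

open MvPolynomial Pool.Agent.H952R2.Sextic Pool.Agent.H952R2.SexticDefs

namespace Pool.Agent.Results.MP_b62148_ag.GeneralSexticDoubleCovers

/-- The exponents of the monomials of degree six in `n + 1` variables. -/
abbrev Exponents (n : ℕ) : Type := {d : Fin (n + 1) →₀ ℕ // d ∈ Finset.finsuppAntidiag Finset.univ 6}

/-- **Potential density of the general sextic double cover of `ℙⁿ`, `n ≥ 5`.** -/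
theorem result (n : ℕ) (hn : 5 ≤ n) :
    ∃ Φ : MvPolynomial (Exponents n) ℚ, Φ ≠ 0 ∧
      ∀ (k : Type) [Field k] [NumberField k] (F : MvPolynomial (Fin (n + 1)) k),
        IsSmoothSextic F → aeval (fun d : Exponents n => coeff d.1 F) Φ ≠ 0 →
        ∃ (L : Type) (_ : Field L) (_ : NumberField L) (_ : Algebra k L),
          DensePoints (MvPolynomial.map (algebraMap k L) F) := by
  classical
  obtain ⟨Φ, hΦ, h⟩ := Pool.Agent.L0h9.Six.main (ι := Fin (n + 1))
    (Fin.castLEEmb (show 6 ≤ n + 1 by omega))
  refine ⟨Φ, hΦ, ?_⟩
  intro k _ _ F hF hgen
  obtain ⟨hF6, hsm⟩ := hF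
  obtain ⟨p, b, D, h1, h2, h3, h4, h5, h6, h7, h8⟩ := h k F hF6 hgen
  set S : Set (AlgebraicClosure k) := Set.range p ∪ Set.range b with hS
  have hSfin : S.Finite := (Set.finite_range p).union (Set.finite_range b)
  set L : IntermediateField k (AlgebraicClosure k) := IntermediateField.adjoin k S with hL
  have : Finite S := hSfin.to_subtype
  have hfin : FiniteDimensional k L := IntermediateField.finiteDimensional_adjoin
    (fun x _ => (Algebra.IsAlgebraic.isAlgebraic (R := k) x).isIntegral)
  have hfinQ : FiniteDimensional ℚ L := FiniteDimensional.trans ℚ k L
  have hNF : NumberField L := ⟨⟩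
  have hpL : ∀ j, p j ∈ L := fun j =>
    IntermediateField.subset_adjoin k S (Or.inl ⟨j, rfl⟩)
  have hbL : ∀ j, b j ∈ L := fun j =>
    IntermediateField.subset_adjoin k S (Or.inr ⟨j, rfl⟩)
  exact ⟨L, inferInstance, hNF, inferInstance,
    part2_aux k n F hF6 (AlgebraicClosure k) hsm L (fun j => ⟨p j, hpL j⟩)
      (fun j => ⟨b j, hbL j⟩) D _ _ (fun h => h1 (congrArg Subtype.val h)) (Subtype.ext h2)
      (fun h => h3 (congrArg Subtype.val h)) h4 h5 h6 h7 (polar_ne F p D b h4 h6 h8)⟩

end Pool.Agent.Results.MP_b62148_ag.GeneralSexticDoubleCovers
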