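import Pool.Agent.L0h9.Gen.Main

/-!
# Potential density of the general double cover of multidegree `(6, 4, …, 4)` (helper9)

Consider the double covers `X : w² = F(t₀, …, t_m, x₀, …, x_{k+1})`, where `F` is the general
polynomial with the exponents in a finite set `E`. We suppose that the monomials `1`, `x_i`, `x_i²`,
`x₀³`, `t_j` belong to `E`, that the degree of the monomials of `E` in each of the variables `t_j` is
at most four, and that the monomials of `E` which contain at most the variable `t₀` among the `t_j`
are of total degree at most six in `x₀, …, x_{k+1}`. So for `t₁ = ⋯ = t_m = 0` and fixed `t₀` we have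
the double covers of the affine space, of dimension `k + 2 ≥ 2`, branched along sextics.

We show that there is a nonzero polynomial `Φ` in the coefficients of `F`, with rational coefficients,
such that for all number fields `K` and all polynomials `F` over `K` with the exponents in `E` and with
`Φ(F) ≠ 0` the double cover `X` is potentially dense: there is a finite extension `L` of `K` such that
the `L`-points of `X` are Zariski dense.

The main example is the family of the double covers of `ℙⁿ × ℙ^{m₁} × ⋯ × ℙ^{m_r}`, `n ≥ 2`, `r ≥ 1`,
branched along a divisor of multidegree `(6, e₁, …, e_r)`, `e_i ≤ 4`. These varieties are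
rationally connected if some `e_i` is at most two (then `X` is a bundle of quadrics; for `n = 2` and
`r = m₁ = 1`, `e₁ = 2` it is a conic bundle over the plane with a discriminant of degree twelve), if
`n ≥ 3`, or if some `m_i` is at least two.

Idea of the proof. The general `F` has a fibre `F(t*, x)`, `t* = (t₀*, 0, …, 0)`, with an ordinary
double point `x*`; the polynomials with such a double point are parametrised by an affine
space, which dominates the family (by a computation of the Jacobian matrix at one point). After the
substitution `t = t* + s² t'`, `x = x* + s (1, y)`, `w = s w'` and a linear change of the coordinates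
`y` the polynomial `F / s²` satisfies the conditions of the theorem on double covers with
a triangular branch divisor (`TriangularCovers`).
-/

set_option autoImplicit false

open MvPolynomial Pool.Agent.L0h9.Gen

namespace Pool.Agent.Results.MP_b62148_ag.GeneralSexticFibres

/-- **Potential density of the general double cover with the exponents in `E`.** The variables are
`t_j = X (Sum.inl j)`, `j = 0, …, m`, and `x_i = X (Sum.inr i)`, `i = 0, …, k + 1`. The
polynomial with the coefficients `c` is `poly c`. -/
theorem result {m k : ℕ} (E : Finset ((Fin (m + 1) ⊕ Fin (k + 2)) →₀ ℕ)) (hE : Admissible E) :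
    ∃ Φ : MvPolynomial E ℚ, Φ ≠ 0 ∧
      ∀ (K : Type) [Field K] [NumberField K] (c : E → K), aeval c Φ ≠ 0 →
        ∃ L : IntermediateField K (AlgebraicClosure K), FiniteDimensional K L ∧
          DensePoints (map (algebraMap K L) (poly c)) := by
  obtain ⟨Φ, hΦ, h⟩ := main hE
  refine ⟨Φ, hΦ, ?_⟩
  intro K _ _ c hc
  have : Algebra.IsAlgebraic ℚ (AlgebraicClosure K) := Algebra.IsAlgebraic.trans ℚ K _
  exact h K (AlgebraicClosure K) c hc

end Pool.Agent.Results.MP_b62148_ag.GeneralSexticFibres
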