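import Pool.Agent.L0h9.Rat.EGen

/-!
# Double covers of `ℙⁿ` branched along sextics which contain a curve of genus at most one (helper9)

Let `X : w² = F(x₀, …, x_n)` be the double cover of `ℙⁿ` branched along a sextic hypersurface
`S = {F = 0}` over a number field `K`. For `S` smooth and `n ≥ 3` it is a Fano variety; for
`n = 3` these are the sextic double solids.

(1) If `S` contains, over the algebraic closure of `K`, a curve of genus at most one with a point
`p` at which `S` is smooth and has an asymptotic tangent direction of contact order exactly three
which is not conjugate to the curve, then `X` is potentially dense. The curve is the image of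
`w² = s g(s)`, where `g` has degree at most three and `g(0) ≠ 0`, and `p` is the image of `(0, 0)`:
each curve of geometric genus at most one has such a parametrisation for each of its points at
which it is immersed. The case `g = 1` is that of the rational curves.

(2) For `n ≥ 3` and `2 ≤ e ≤ n` this holds for the general sextic which contains the rational
normal curve `(1 : t : … : t ^ e : 0 : … : 0)`, so for the general sextics which contain a conic
or a twisted cubic.

(3) For `n ≥ 3` and `2 ≤ e ≤ n` this holds for the general sextic which contains the elliptic
normal curve `(1 : s : w : s ^ 2 : s w : … : 0 : … : 0)` of degree `e + 1`, `w² = s g(s)`, so for the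
general sextics which contain a plane cubic or an elliptic quartic curve.

Idea of the proof. The tangent hyperplane `H_t` of `S` at `c(t)` cuts out a double cover
`X_t : w² = F|H_t` of `H_t` with a double point, and the lines of `H_t` through `c(t)` make it a
family of curves of genus one which has a bisection, the quadric bundle `u² = q_t(v)` given by the
second fundamental form `q_t`. By Tsen's theorem the quadric bundle over the curve has a
section, defined over a finite extension of `K`. For the points `t` near `p` in the `2`-adic
topology the family of curves `w² = u² + q₃ s + q₄ s² + q₅ s³ + q₆ s⁴` over the (rational) quadric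
`u² = q_t(v)` has members with `u` small and `q₃` not small, and so (doubling the point `(0, u)`
leads close to the `2`-adic point at infinity) the rational points of `X_t` are dense. There are
infinitely many such `t` over one field `L`, since `w² = s g(s)` is of rank at least one over
`L = K(√(s₀ g(s₀)))` for `s₀` small, by the same argument.
-/

set_option autoImplicit false

open MvPolynomial Pool.Agent.L0h9.Rat Pool.Agent.L0h9.Tri

namespace Pool.Agent.Results.MP_b62148_ag.SexticsWithRationalCurve

/-- **Potential density of the double covers of `ℙⁿ` branched along a sextic with a good curve of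
genus at most one**, and of those branched along the general sextic with a rational or an elliptic
normal curve. -/
theorem result :
    (∀ (K : Type) [Field K] [NumberField K] (n : ℕ) (F : MvPolynomial (Fin (n + 1)) K)
      (g : Polynomial (AlgebraicClosure K))
      (c : Fin (n + 1) → MvPolynomial (Fin 2) (AlgebraicClosure K)), F.IsHomogeneous 6 →
      GoodGenusOneCurve F g c → PotentiallyDense F) ∧
    (∀ n e : ℕ, 3 ≤ n → 2 ≤ e → e ≤ n → ∃ Φ : MvPolynomial (Exponents n) ℚ,
      (∃ G : MvPolynomial (Fin (n + 1)) ℚ, HasNormalCurve e G ∧ eval (coeffs G) Φ ≠ 0) ∧
      ∀ (K : Type) [Field K] [NumberField K] (F : MvPolynomial (Fin (n + 1)) K),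
        HasNormalCurve e F → aeval (coeffs F) Φ ≠ 0 → PotentiallyDense F) ∧
    (∀ n e : ℕ, 3 ≤ n → 2 ≤ e → e ≤ n → ∃ Φ : MvPolynomial (Exponents n) ℚ,
      ∀ (K : Type) [Field K] [NumberField K] (g : Polynomial K), g.natDegree ≤ 2 →
        g.eval 0 ≠ 0 →
        (∃ G : MvPolynomial (Fin (n + 1)) K, HasEllipticCurve e g G ∧
          aeval (coeffs G) Φ ≠ 0) ∧
        ∀ F : MvPolynomial (Fin (n + 1)) K, HasEllipticCurve e g F → aeval (coeffs F) Φ ≠ 0 →
          PotentiallyDense F) :=
  ⟨fun _ _ _ _ F g c hF h => potential_genus_one F hF g c h,
    fun n e hn he _ => general n e hn he, fun n e hn he _ => general_elliptic n e hn he⟩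

end Pool.Agent.Results.MP_b62148_ag.SexticsWithRationalCurve
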