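import Pool.Agent.L0h9.Tri.Final

/-!
# Rational points on double covers with a triangular branch divisor (helper9)

`K` is a number field and `X` is the double cover `w² = P(x₀, …, x_r)` of the affine space, where
`P` is a polynomial with coefficients in `K`. We show that the rational points of `X` are
potentially dense if, for some algebraic point `a` of the branch divisor `P = 0`, the polynomials

  `P(x₀, …, x_r)`, `P(a₀, x₁, …, x_r)`, `P(a₀, a₁, x₂, …, x_r)`, …, `P(a₀, …, a_{r-1}, x_r)`

have degree at most four in `x₀`, in `x₁`, in `x₂`, …, in `x_r` respectively (there is no bound for
the degrees in the other variables), and if `∂P/∂x_i(a) ≠ 0` for the indices `i < r` for which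
this degree is three or four. The points are dense over a quadratic extension of the field
generated by the coordinates of `a`, and over this field itself if the last polynomial has degree
at most two and a simple zero.

If the degree of `P` in `x₀` is at most two then `X` is a conic bundle over the affine space
of the other variables. The theorem applies to `w² = A(x) + B(x) z + C(x) z²` (take
`a = (0, x*)`) for arbitrary polynomials `B` and `C`, of arbitrary degree, if `A` is as above,
for example if `A` has degree at most four in each variable. So the discriminant
`B² - 4 A C` can have arbitrarily large degree.

Idea of the proof. We embed `K` into the algebraic closure of the field of the `2`-adic numbers.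
Consider the set of all `x` near `a` for which `P(x)` is a nonzero square. By induction, there are
many such `x` with `x₀ = a₀`. The curve `w² = P(t, x₁, …, x_r)` in the `(t, w)`-plane has
genus at most one and a rational point with `t = a₀`; as this point is close to a ramification
point and as the absolute value is `2`-adic, explicit formulas (a doubling in the case of genus
one) give infinitely many rational points on the curve which are close to the given one. For
the last variable one needs a rational point of the curve `w² = P(a₀, …, a_{r-1}, t)` which is
close to its ramification point `t = a_r`; it is found after a quadratic extension.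
-/

set_option autoImplicit false

open MvPolynomial Pool.Agent.L0h9.Tri

namespace Pool.Agent.Results.MP_b62148_ag.TriangularCovers

/-- **Potential density for double covers with a triangular branch divisor.** Here
`truncate P a i = P(a₀, …, a_{i-1}, x_i, …, x_r)`; the condition `IsTri P a` says
that `P(a) = 0`, that the degree of `truncate P a i` in `x_i` is at most `4` for all `i`,
that `∂P/∂x_i(a) ≠ 0` if `i < r` and this degree is larger than `2`, and that
`truncate P a r ≠ 0`; and `CoverDense Q` says that every polynomial in `w` and `x` which vanishes
at all the rational solutions of `w² = Q(x)` is divisible by `w² - Q(x)`. -/
theorem result {K : Type} [Field K] [NumberField K] {r : ℕ} (P : MvPolynomial (Fin (r + 1)) K)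
    (a : Fin (r + 1) → AlgebraicClosure K)
    (h : IsTri (map (algebraMap K (AlgebraicClosure K)) P) a) :
    (∃ L : IntermediateField K (AlgebraicClosure K), FiniteDimensional K L ∧
      IntermediateField.adjoin K (Set.range a) ≤ L ∧
      Module.finrank K L ≤ 2 * Module.finrank K (IntermediateField.adjoin K (Set.range a)) ∧
      CoverDense (map (algebraMap K L) P)) ∧
    (eval a (pderiv (Fin.last r) (map (algebraMap K (AlgebraicClosure K)) P)) ≠ 0 →
      degreeOf (Fin.last r)
        (truncate (map (algebraMap K (AlgebraicClosure K)) P) a (Fin.last r)) ≤ 2 →
      CoverDense (map (algebraMap K (IntermediateField.adjoin K (Set.range a))) P)) := by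
  have : Algebra.IsAlgebraic ℚ (AlgebraicClosure K) := Algebra.IsAlgebraic.trans ℚ K _
  exact main P a h

end Pool.Agent.Results.MP_b62148_ag.TriangularCovers
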